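import Mathlib

/-!
# Induced trees in orthogonality graphs of vectors

Let `W` be a finite-dimensional real vector space with a symmetric bilinear form `B`, and let
`x : V → W` be a family of non-isotropic vectors, split into components by `cp : V → ℕ`.
Two indices are adjacent when they lie in the same component and their vectors are `B`-orthogonal.
If `U` is an ultrafilter on `V` no member of which is independent, then every finite tree embeds
as an induced subgraph.
-/

set_option autoImplicit false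

open Module

namespace Pool.Agent.GS

noncomputable section

open scoped Classical

variable {W : Type*} [AddCommGroup W] [Module ℝ W] [FiniteDimensional ℝ W]
variable {V : Type*}

/-- `X` is covered by at most `K` subspaces of dimension `< κ`. -/
def Cov (x : V → W) (X : Set V) (K κ : ℕ) : Prop :=
  ∃ 𝓢 : Finset (Submodule ℝ W), 𝓢.card ≤ K ∧ (∀ F ∈ 𝓢, finrank ℝ F < κ) ∧
    ∀ w ∈ X, ∃ F ∈ 𝓢, x w ∈ F

omit [FiniteDimensional ℝ W] in
lemma Cov.mono {x : V → W} {X Y : Set V} {K K' κ : ℕ} (h : Cov x Y K κ) (hXY : X ⊆ Y)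
    (hK : K ≤ K') : Cov x X K' κ := by
  obtain ⟨𝓢, h1, h2, h3⟩ := h
  exact ⟨𝓢, h1.trans hK, h2, fun w hw => h3 w (hXY hw)⟩

/-- Neighbours of `u` inside `S`. -/
def nb (B : W →ₗ[ℝ] W →ₗ[ℝ] ℝ) (x : V → W) (cp : V → ℕ) (S : Set V) (u : V) : Set V :=
  {w | w ∈ S ∧ cp w = cp u ∧ B (x u) (x w) = 0}

/-- Elements of `S` in the component of `u` whose vector lies in `F`. -/
def fl (x : V → W) (cp : V → ℕ) (F : Submodule ℝ W) (S : Set V) (u : V) : Set V :=
  {w | w ∈ S ∧ cp w = cp u ∧ x w ∈ F}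

/-- The orthogonal subspace. -/
def orth (B : W →ₗ[ℝ] W →ₗ[ℝ] ℝ) (F : Submodule ℝ W) : Submodule ℝ W where
  carrier := {w | ∀ a ∈ F, B a w = 0}
  add_mem' := by
    intro a b ha hb c hc
    rw [map_add, ha c hc, hb c hc, add_zero]
  zero_mem' := by
    intro c _
    simp
  smul_mem' := by
    intro r a ha c hc
    rw [map_smul, ha c hc, smul_zero]

omit [FiniteDimensional ℝ W] in
lemma mem_orth {B : W →ₗ[ℝ] W →ₗ[ℝ] ℝ} {F : Submodule ℝ W} {w : W} :
    w ∈ orth B F ↔ ∀ a ∈ F, B a w = 0 := Iff.rfl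

/-- Colouring lemma: a relation of bounded degree has an independent set in any ultrafilter. -/
lemma exists_indep {Y : Type*} (U : Ultrafilter Y) (r : Y → Y → Prop) (hs : ∀ a b, r a b → r b a)
    (k : ℕ) : ∀ Y₁ ∈ U, (∀ y ∈ Y₁, ¬ r y y) → (∀ y ∈ Y₁, {z | z ∈ Y₁ ∧ r y z}.encard ≤ k) →
    ∃ Z ∈ U, Z ⊆ Y₁ ∧ ∀ a ∈ Z, ∀ b ∈ Z, ¬ r a b := by
  induction k with
  | zero =>
    intro Y₁ hY _ hd
    refine ⟨Y₁, hY, subset_rfl, fun a ha b hb hr => ?_⟩
    have := hd a ha
    simp only [Nat.cast_zero, nonpos_iff_eq_zero, Set.encard_eq_zero] at this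
    have hb' : b ∈ {z | z ∈ Y₁ ∧ r a z} := ⟨hb, hr⟩
    rw [this] at hb'
    exact hb'
  | succ k ih =>
    intro Y₁ hY hirr hd
    -- maximal independent set
    obtain ⟨I, hI⟩ : ∃ I, Maximal (fun I : Set Y => I ⊆ Y₁ ∧ ∀ a ∈ I, ∀ b ∈ I, ¬ r a b) I := by
      refine zorn_subset {I : Set Y | I ⊆ Y₁ ∧ ∀ a ∈ I, ∀ b ∈ I, ¬ r a b} ?_
      intro c hc hchain
      refine ⟨⋃₀ c, ⟨?_, ?_⟩, fun s hs => Set.subset_sUnion_of_mem hs⟩
      · exact Set.sUnion_subset fun s hs => (hc hs).1
      · rintro a ⟨s, hs, has⟩ b ⟨t, ht, hbt⟩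
        rcases hchain.total hs ht with h | h
        · exact (hc ht).2 a (h has) b hbt
        · exact (hc hs).2 a has b (h hbt)
    obtain ⟨⟨hIY, hIind⟩, hmax⟩ := hI
    by_cases hIU : I ∈ U
    · exact ⟨I, hIU, hIY, hIind⟩
    · have hcU : Y₁ \ I ∈ U := by
        have : Iᶜ ∈ U := Ultrafilter.compl_mem_iff_notMem.mpr hIU
        exact Filter.inter_mem hY this
      obtain ⟨Z, hZ, hZs, hZi⟩ := ih (Y₁ \ I) hcU (fun y hy => hirr y hy.1) (by
        intro y hy
        -- `y` has a neighbour in `I`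
        have : ∃ z ∈ I, r y z := by
          by_contra hcon
          push Not at hcon
          have hins : insert y I ⊆ I := by
            apply hmax
            · refine ⟨Set.insert_subset hy.1 hIY, ?_⟩
              intro a ha b hb
              rcases ha with rfl | ha <;> rcases hb with rfl | hb
              · exact hirr _ hy.1
              · exact hcon b hb
              · exact fun h => hcon a ha (hs _ _ h)
              · exact hIind a ha b hb
            · exact Set.subset_insert _ _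
          exact hy.2 (hins (Set.mem_insert _ _))
        obtain ⟨z, hzI, hyz⟩ := this
        have hsub : {w | w ∈ Y₁ \ I ∧ r y w} ⊆ {w | w ∈ Y₁ ∧ r y w} \ {z} := by
          rintro w ⟨hw, hr⟩
          refine ⟨⟨hw.1, hr⟩, ?_⟩
          rintro rfl
          exact hw.2 hzI
        have h1 := Set.encard_le_encard hsub
        have h2 : ({w | w ∈ Y₁ ∧ r y w} \ {z}).encard + 1 = {w | w ∈ Y₁ ∧ r y w}.encard :=
          Set.encard_sdiff_singleton_add_one (show z ∈ {w | w ∈ Y₁ ∧ r y w} from ⟨hIY hzI, hyz⟩)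
        have h3 := hd y hy.1
        rw [← h2] at h3
        have h4 : ({w | w ∈ Y₁ ∧ r y w} \ {z}).encard ≤ k := by
          have : ({w | w ∈ Y₁ ∧ r y w} \ {z}).encard + 1 ≤ (k : ℕ∞) + 1 := by
            simpa using h3
          exact (ENat.add_le_add_iff_right (by simp)).mp this
        exact h1.trans h4)
      exact ⟨Z, hZ, hZs.trans Set.sdiff_subset, hZi⟩

end

end Pool.Agent.GS
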