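import Pool.Agent.GS.Flats

set_option autoImplicit false

open Module

namespace Pool.Agent.GS

noncomputable section

open scoped Classical

variable {W : Type*} [AddCommGroup W] [Module ℝ W] [FiniteDimensional ℝ W]
variable {V : Type*}

/-- The decreasing sequence of generic sets. -/
def Vs (x : V → W) (cp : V → ℕ) (L : V → Submodule ℝ W) (S : Set V) (K κ : ℕ) : ℕ → Set V
  | 0 => S
  | n + 1 => {u | u ∈ Vs x cp L S K κ n ∧ ¬ Cov x (fl x cp (L u) (Vs x cp L S K κ n) u) K κ}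

omit [FiniteDimensional ℝ W] in
lemma Vs_succ_subset (x : V → W) (cp : V → ℕ) (L : V → Submodule ℝ W) (S : Set V) (K κ n : ℕ) :
    Vs x cp L S K κ (n + 1) ⊆ Vs x cp L S K κ n := fun _ hu => hu.1

omit [FiniteDimensional ℝ W] in
lemma Vs_subset (x : V → W) (cp : V → ℕ) (L : V → Submodule ℝ W) (S : Set V) (K κ n : ℕ) :
    Vs x cp L S K κ n ⊆ S := by
  induction n with
  | zero => exact subset_rfl
  | succ n ih => exact (Vs_succ_subset x cp L S K κ n).trans ih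

omit [FiniteDimensional ℝ W] in
lemma Vs_mem (x : V → W) (cp : V → ℕ) (L : V → Submodule ℝ W) (S : Set V) (K κ : ℕ)
    (U : Ultrafilter V) (hS : S ∈ U)
    (h : ∀ S ∈ U, ∀ K, ∀ᶠ u in (U : Filter V), ¬ Cov x (fl x cp (L u) S u) K κ) (n : ℕ) :
    Vs x cp L S K κ n ∈ U := by
  induction n with
  | zero => exact hS
  | succ n ih => exact Filter.inter_mem ih (h _ ih K)

/-- A good embedding of a tree. -/
structure Good {α : Type*} (B : W →ₗ[ℝ] W →ₗ[ℝ] ℝ) (x : V → W) (cp : V → ℕ)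
    (L : V → Submodule ℝ W) (T : SimpleGraph α) (S : Set V) (φ : α → V) : Prop where
  mem : ∀ a, φ a ∈ S
  comp : ∀ a b, cp (φ a) = cp (φ b)
  adj : ∀ a b, a ≠ b → (B (x (φ a)) (x (φ b)) = 0 ↔ T.Adj a b)
  nle : ∀ a b, a ≠ b → ¬ L (φ a) ≤ LinearMap.ker (B (x (φ b)))

theorem exists_good (B : W →ₗ[ℝ] W →ₗ[ℝ] ℝ) (hB : ∀ a b, B a b = B b a) (x : V → W)
    (cp : V → ℕ) (U : Ultrafilter V)
    {κ k₀ : ℕ} {S₀ : Set V} {𝓕 : Fin k₀ → V → Submodule ℝ W} {i₀ : Fin k₀} {S₁ : Set V}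
    (hS₁ : S₁ ∈ U) (hS₁₀ : S₁ ⊆ S₀)
    (hker : ∀ i u, 𝓕 i u ≤ LinearMap.ker (B (x u)))
    (hfin : ∀ i u, finrank ℝ (𝓕 i u) ≤ κ)
    (hcov : ∀ u ∈ S₀, ∀ w ∈ nb B x cp S₀ u, ∃ i, x w ∈ 𝓕 i u)
    (hgen : ∀ S ∈ U, ∀ K, ∀ᶠ u in (U : Filter V), ¬ Cov x (fl x cp (𝓕 i₀ u) S u) K κ)
    (hgen₀ : ∀ u ∈ S₁, ¬ Cov x (fl x cp (𝓕 i₀ u) S₀ u) k₀ κ)
    (hnb : ∀ u ∈ S₁, ∀ u' ∈ S₁, cp u = cp u' → ¬ ∀ a ∈ 𝓕 i₀ u, ∀ b ∈ 𝓕 i₀ u', B a b = 0)
    (m : ℕ) (n : ℕ) : ∀ (α : Type) [Fintype α] (T : SimpleGraph α), T.IsTree →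
      Fintype.card α = n + 1 → n + 1 ≤ m → ∀ j,
      ∃ φ : α → V, Good B x cp (𝓕 i₀) T (Vs x cp (𝓕 i₀) S₁ (m * (k₀ + 2)) κ j) φ := by
  set L := 𝓕 i₀ with hL
  set K := m * (k₀ + 2) with hK
  induction n with
  | zero =>
    intro α _ T _ hcard _ j
    obtain ⟨u, hu⟩ := U.nonempty_of_mem (Vs_mem x cp L S₁ K κ U hS₁ hgen j)
    have hsub : Subsingleton α := Fintype.card_le_one_iff_subsingleton.mp (by omega)
    exact ⟨fun _ => u, fun _ => hu, fun _ _ => rfl,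
      fun a b hab => absurd (Subsingleton.elim a b) hab,
      fun a b hab => absurd (Subsingleton.elim a b) hab⟩
  | succ n ih =>
    intro α _ T hT hcard hnm j
    have : Nontrivial α := Fintype.one_lt_card_iff_nontrivial.mp (by omega)
    obtain ⟨ℓ, hℓ⟩ := hT.exists_vert_degree_one_of_nontrivial
    obtain ⟨p, hp, hpu⟩ := SimpleGraph.degree_eq_one_iff_existsUnique_adj.mp hℓ
    have hT' : (T.induce ({ℓ}ᶜ : Set α)).IsTree :=
      ⟨hT.1.induce_compl_singleton_of_degree_eq_one hℓ, hT.2.induce _⟩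
    have hcard' : Fintype.card ({ℓ}ᶜ : Set α) = n + 1 := by
      rw [Fintype.card_compl_set]
      simp [hcard]
    obtain ⟨φ, hφ⟩ := ih ({ℓ}ᶜ : Set α) (T.induce ({ℓ}ᶜ : Set α)) hT' hcard' (by omega) (j + 1)
    have hpℓ : p ≠ ℓ := fun h => T.loopless.irrefl ℓ (by rw [h] at hp; exact hp)
    let p' : ({ℓ}ᶜ : Set α) := ⟨p, hpℓ⟩
    set u := φ p' with hu
    have huV := hφ.mem p'
    have hgu : ¬ Cov x (fl x cp (L u) (Vs x cp L S₁ K κ j) u) K κ := huV.2
    have hmemS₁ : ∀ a, φ a ∈ S₁ := fun a => Vs_subset x cp L S₁ K κ _ (hφ.mem a)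
    have hfu : finrank ℝ (L u) ≤ κ := hfin _ _
    -- the subspaces to avoid
    let E : ({ℓ}ᶜ : Set α) × Option (Option (Fin k₀)) → Submodule ℝ W := fun q =>
      match q.2 with
      | none => L u ⊓ LinearMap.ker (B (x (φ q.1)))
      | some none => L u ⊓ orth B (L (φ q.1))
      | some (some i) => L u ⊓ orth B (𝓕 i (φ q.1))
    let 𝓢 : Finset (Submodule ℝ W) := (Finset.univ.image E).filter fun F => finrank ℝ F < κ
    have h𝓢card : 𝓢.card ≤ K := by
      refine (Finset.card_filter_le _ _).trans (Finset.card_image_le.trans ?_)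
      rw [Finset.card_univ, Fintype.card_prod, hcard']
      simp only [Fintype.card_option, Fintype.card_fin]
      rw [hK]
      exact Nat.mul_le_mul (by omega) le_rfl
    have hlt : ∀ F : Submodule ℝ W, ¬ L u ≤ F → finrank ℝ (L u ⊓ F : Submodule ℝ W) < κ := by
      intro F hF
      refine lt_of_lt_of_le (Submodule.finrank_lt_finrank_of_lt ?_) hfu
      exact lt_of_le_of_ne inf_le_left fun h => hF (inf_eq_left.mp h)
    obtain ⟨w, hwfl, hwE⟩ : ∃ w ∈ fl x cp (L u) (Vs x cp L S₁ K κ j) u, ∀ F ∈ 𝓢, x w ∉ F := by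
      by_contra hcon
      push Not at hcon
      exact hgu ⟨𝓢, h𝓢card, fun F hF => (Finset.mem_filter.mp hF).2, hcon⟩
    obtain ⟨hwV, hwc, hwL⟩ := hwfl
    have havoid : ∀ q, finrank ℝ (E q) < κ → x w ∉ E q := fun q hq =>
      hwE _ (Finset.mem_filter.mpr ⟨Finset.mem_image_of_mem _ (Finset.mem_univ _), hq⟩)
    have hwS₁ : w ∈ S₁ := Vs_subset x cp L S₁ K κ _ hwV
    -- (1) nonadjacency
    have h1 : ∀ a : ({ℓ}ᶜ : Set α), a ≠ p' → B (x (φ a)) (x w) ≠ 0 := by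
      intro a ha h0
      have hnle : ¬ L u ≤ LinearMap.ker (B (x (φ a))) := hφ.nle p' a (Ne.symm ha)
      exact havoid (a, none) (hlt _ hnle) ⟨hwL, h0⟩
    have h1' : B (x u) (x w) = 0 := hker i₀ u hwL
    -- (2)
    have h2 : ∀ a : ({ℓ}ᶜ : Set α), ¬ L (φ a) ≤ LinearMap.ker (B (x w)) := by
      intro a hle
      have hnle : ¬ L u ≤ orth B (L (φ a)) := by
        intro hle'
        apply hnb (φ a) (hmemS₁ a) u (hmemS₁ p') (hφ.comp a p')
        intro c hc b hb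
        exact hle' hb c hc
      refine havoid (a, some none) (hlt _ hnle) ⟨hwL, ?_⟩
      intro c hc
      rw [hB]
      exact hle hc
    -- (3)
    have h3 : ∀ a : ({ℓ}ᶜ : Set α), ¬ L w ≤ LinearMap.ker (B (x (φ a))) := by
      intro a hle
      have hcomp : cp w = cp (φ a) := by rw [hwc]; exact hφ.comp p' a
      have hg : ¬ Cov x (fl x cp (L w) S₀ (φ a)) k₀ κ := by
        intro hc
        apply hgen₀ w hwS₁
        refine hc.mono ?_ le_rfl
        rintro z ⟨hz1, hz2, hz3⟩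
        exact ⟨hz1, by rw [hz2, hcomp], hz3⟩
      obtain ⟨i, hi⟩ := eq_of_generic hfin hcov (hS₁₀ (hmemS₁ a)) hle (hfin _ _) hg
      have hnle : ¬ L u ≤ orth B (𝓕 i (φ a)) := by
        intro hle'
        rw [← hi] at hle'
        apply hnb w hwS₁ u (hmemS₁ p') hwc
        intro c hc b hb
        exact hle' hb c hc
      refine havoid (a, some (some i)) (hlt _ hnle) ⟨hwL, ?_⟩
      intro c hc
      rw [← hi] at hc
      rw [hB]
      exact hker i₀ w hc
    -- the extended embedding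
    let ψ : α → V := fun a => if h : a = ℓ then w else φ ⟨a, h⟩
    have hψℓ : ψ ℓ = w := by simp [ψ]
    have hψ : ∀ a (h : a ≠ ℓ), ψ a = φ ⟨a, h⟩ := fun a h => by simp [ψ, h]
    refine ⟨ψ, ?_, ?_, ?_, ?_⟩
    · intro a
      by_cases ha : a = ℓ
      · rw [ha, hψℓ]; exact hwV
      · rw [hψ a ha]; exact Vs_succ_subset x cp L S₁ K κ j (hφ.mem _)
    · have hall : ∀ a, cp (ψ a) = cp u := by
        intro a
        by_cases ha : a = ℓ
        · rw [ha, hψℓ]; exact hwc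
        · rw [hψ a ha]; exact hφ.comp _ _
      intro a b
      rw [hall a, hall b]
    · intro a b hab
      by_cases ha : a = ℓ
      · have hb : b ≠ ℓ := fun h => hab (ha.trans h.symm)
        rw [ha, hψℓ, hψ b hb, hB]
        by_cases hbp : b = p
        · subst hbp
          exact ⟨fun _ => hp, fun _ => h1'⟩
        · have hne : (⟨b, hb⟩ : ({ℓ}ᶜ : Set α)) ≠ p' := fun h => hbp (congrArg Subtype.val h)
          exact ⟨fun h => absurd h (h1 _ hne), fun h => absurd (hpu b h) hbp⟩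
      · by_cases hb : b = ℓ
        · rw [hb, hψℓ, hψ a ha]
          by_cases hap : a = p
          · subst hap
            exact ⟨fun _ => hp.symm, fun _ => h1'⟩
          · have hne : (⟨a, ha⟩ : ({ℓ}ᶜ : Set α)) ≠ p' := fun h => hap (congrArg Subtype.val h)
            exact ⟨fun h => absurd h (h1 _ hne), fun h => absurd (hpu a h.symm) hap⟩
        · rw [hψ a ha, hψ b hb]
          have := hφ.adj ⟨a, ha⟩ ⟨b, hb⟩ (fun h => hab (congrArg Subtype.val h))
          rw [this]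
          exact Iff.rfl
    · intro a b hab
      by_cases ha : a = ℓ
      · have hb : b ≠ ℓ := fun h => hab (ha.trans h.symm)
        rw [ha, hψℓ, hψ b hb]
        exact h3 _
      · by_cases hb : b = ℓ
        · rw [hb, hψℓ, hψ a ha]
          exact h2 _
        · rw [hψ a ha, hψ b hb]
          exact hφ.nle _ _ (fun h => hab (congrArg Subtype.val h))

/-- Every finite tree embeds as an induced subgraph when no member of the ultrafilter is
independent. -/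
theorem exists_induced_tree (B : W →ₗ[ℝ] W →ₗ[ℝ] ℝ) (hB : ∀ a b, B a b = B b a) (x : V → W)
    (cp : V → ℕ) (hx : ∀ v, B (x v) (x v) ≠ 0) (U : Ultrafilter V)
    (hU : ∀ S ∈ U, ∃ u ∈ S, (nb B x cp S u).Nonempty) (m : ℕ) (T : SimpleGraph (Fin m))
    (hT : T.IsTree) :
    ∃ φ : Fin m → V, Function.Injective φ ∧ (∀ a b, cp (φ a) = cp (φ b)) ∧
      ∀ a b, a ≠ b → (B (x (φ a)) (x (φ b)) = 0 ↔ T.Adj a b) := by
  obtain ⟨κ, k₀, S₀, 𝓕, i₀, S₁, hS₀, hS₁, hS₁₀, hker, hfin, hcov, hgen, hgen₀, hnb⟩ :=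
    exists_flats B hB x cp hx U hU
  have hm : 0 < m := by
    have := hT.1.nonempty
    exact Fin.pos_iff_nonempty.mpr this
  obtain ⟨n, rfl⟩ : ∃ n, m = n + 1 := ⟨m - 1, by omega⟩
  obtain ⟨φ, hφ⟩ := exists_good B hB x cp U hS₁ hS₁₀ hker hfin hcov hgen hgen₀ hnb (n + 1) n
    (Fin (n + 1)) T hT (by simp) le_rfl 0
  refine ⟨φ, ?_, hφ.comp, hφ.adj⟩
  intro a b hab
  by_contra hne
  apply hφ.nle a b hne
  rw [← hab]
  exact hker _ _

end

end Pool.Agent.GS
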