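import Pool.Agent.GS.Basic

set_option autoImplicit false

open Module

namespace Pool.Agent.GS

noncomputable section

open scoped Classical

variable {W : Type*} [AddCommGroup W] [Module ℝ W] [FiniteDimensional ℝ W]
variable {V : Type*}

omit [FiniteDimensional ℝ W] in
/-- From a cover extract an indexed family. -/
lemma Cov.exists_fun {x : V → W} {X : Set V} {K κ : ℕ} (h : Cov x X K (κ + 1)) :
    ∃ f : Fin K → Submodule ℝ W, (∀ i, finrank ℝ (f i) ≤ κ) ∧ ∀ w ∈ X, ∃ i, x w ∈ f i := by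
  obtain ⟨𝓢, h1, h2, h3⟩ := h
  refine ⟨fun i => 𝓢.toList.getD i ⊥, ?_, ?_⟩
  · intro i
    beta_reduce
    by_cases hi : (i : ℕ) < 𝓢.toList.length
    · rw [List.getD_eq_getElem _ _ hi]
      have : 𝓢.toList[(i : ℕ)] ∈ 𝓢 := by
        rw [← Finset.mem_toList]
        exact List.getElem_mem hi
      exact Nat.lt_succ_iff.mp (h2 _ this)
    · rw [List.getD_eq_default _ _ (not_lt.mp hi)]
      simp
  · intro w hw
    obtain ⟨F, hF, hwF⟩ := h3 w hw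
    rw [← Finset.mem_toList] at hF
    obtain ⟨n, hn, rfl⟩ := List.getElem_of_mem hF
    have hn' : n < K := by
      have := hn
      rw [Finset.length_toList] at this
      omega
    refine ⟨⟨n, hn'⟩, ?_⟩
    beta_reduce
    rw [List.getD_eq_getElem _ _ hn]
    exact hwF

omit [FiniteDimensional ℝ W] in
/-- Finite unions of covers. -/
lemma Cov.iUnion {x : V → W} {k κ : ℕ} {X : Fin k → Set V} {K : Fin k → ℕ} {Y : Set V}
    (h : ∀ i, Cov x (X i) (K i) κ) (hY : ∀ w ∈ Y, ∃ i, w ∈ X i) : Cov x Y (∑ i, K i) κ := by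
  choose 𝓢 h1 h2 h3 using h
  refine ⟨Finset.univ.biUnion 𝓢, ?_, ?_, ?_⟩
  · exact Finset.card_biUnion_le.trans (Finset.sum_le_sum fun i _ => h1 i)
  · intro F hF
    obtain ⟨i, _, hi⟩ := Finset.mem_biUnion.mp hF
    exact h2 i F hi
  · intro w hw
    obtain ⟨i, hi⟩ := hY w hw
    obtain ⟨F, hF, hwF⟩ := h3 i w hi
    exact ⟨F, Finset.mem_biUnion.mpr ⟨i, Finset.mem_univ _, hF⟩, hwF⟩

/-- Rigidity: a generic flat of rank `κ` inside the neighbourhood of `w` is one of the `𝓕 i w`. -/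
lemma eq_of_generic {B : W →ₗ[ℝ] W →ₗ[ℝ] ℝ} {x : V → W} {cp : V → ℕ} {κ k₀ : ℕ} {S₀ : Set V}
    {𝓕 : Fin k₀ → V → Submodule ℝ W} (hfin : ∀ i u, finrank ℝ (𝓕 i u) ≤ κ)
    (hcov : ∀ u ∈ S₀, ∀ w ∈ nb B x cp S₀ u, ∃ i, x w ∈ 𝓕 i u)
    {w : V} (hw : w ∈ S₀) {F : Submodule ℝ W} (hF : F ≤ LinearMap.ker (B (x w)))
    (hFfin : finrank ℝ F ≤ κ) (hgen : ¬ Cov x (fl x cp F S₀ w) k₀ κ) : ∃ i, F = 𝓕 i w := by
  by_contra hcon
  push Not at hcon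
  apply hgen
  refine ⟨Finset.univ.image fun i => F ⊓ 𝓕 i w, ?_, ?_, ?_⟩
  · exact Finset.card_image_le.trans (by simp)
  · intro E hE
    obtain ⟨i, _, rfl⟩ := Finset.mem_image.mp hE
    by_contra hge
    push Not at hge
    have h1 : F ⊓ 𝓕 i w = F := Submodule.eq_of_le_of_finrank_le inf_le_left (hFfin.trans hge)
    have h2 : F ⊓ 𝓕 i w = 𝓕 i w :=
      Submodule.eq_of_le_of_finrank_le inf_le_right ((hfin i w).trans hge)
    exact hcon i (h1.symm.trans h2)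
  · rintro z ⟨hz, hcz, hzF⟩
    have hzk : B (x w) (x z) = 0 := hF hzF
    obtain ⟨i, hi⟩ := hcov w hw z ⟨hz, hcz, hzk⟩
    exact ⟨F ⊓ 𝓕 i w, Finset.mem_image.mpr ⟨i, Finset.mem_univ _, rfl⟩, hzF, hi⟩

theorem exists_flats (B : W →ₗ[ℝ] W →ₗ[ℝ] ℝ) (hB : ∀ a b, B a b = B b a) (x : V → W)
    (cp : V → ℕ) (hx : ∀ v, B (x v) (x v) ≠ 0) (U : Ultrafilter V)
    (hU : ∀ S ∈ U, ∃ u ∈ S, (nb B x cp S u).Nonempty) :
    ∃ (κ k₀ : ℕ) (S₀ : Set V) (𝓕 : Fin k₀ → V → Submodule ℝ W) (i₀ : Fin k₀) (S₁ : Set V),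
      S₀ ∈ U ∧ S₁ ∈ U ∧ S₁ ⊆ S₀ ∧
      (∀ i u, 𝓕 i u ≤ LinearMap.ker (B (x u))) ∧ (∀ i u, finrank ℝ (𝓕 i u) ≤ κ) ∧
      (∀ u ∈ S₀, ∀ w ∈ nb B x cp S₀ u, ∃ i, x w ∈ 𝓕 i u) ∧
      (∀ S ∈ U, ∀ K, ∀ᶠ u in (U : Filter V), ¬ Cov x (fl x cp (𝓕 i₀ u) S u) K κ) ∧
      (∀ u ∈ S₁, ¬ Cov x (fl x cp (𝓕 i₀ u) S₀ u) k₀ κ) ∧
      (∀ u ∈ S₁, ∀ u' ∈ S₁, cp u = cp u' → ¬ ∀ a ∈ 𝓕 i₀ u, ∀ b ∈ 𝓕 i₀ u', B a b = 0) := by
  -- the rank `κ`
  let P : ℕ → Prop := fun n => ∃ S ∈ U, ∃ K, ∀ u ∈ S, Cov x (nb B x cp S u) K n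
  have hP0 : ¬ P 0 := by
    rintro ⟨S, hS, K, hK⟩
    obtain ⟨u, hu, w, hw⟩ := hU S hS
    obtain ⟨𝓢, -, h2, h3⟩ := hK u hu
    obtain ⟨F, hF, -⟩ := h3 w hw
    exact absurd (h2 F hF) (Nat.not_lt_zero _)
  have hPtop : P (finrank ℝ W + 1) := by
    refine ⟨Set.univ, Filter.univ_mem, 1, fun u _ => ⟨{⊤}, by simp, ?_, ?_⟩⟩
    · intro F hF
      rw [Finset.mem_singleton] at hF
      subst hF
      rw [finrank_top]
      exact Nat.lt_succ_self _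
    · intro w _
      exact ⟨⊤, by simp, trivial⟩
  obtain ⟨κ, hκ, hκ1⟩ : ∃ κ, ¬ P κ ∧ P (κ + 1) := by
    by_contra hcon
    push Not at hcon
    have : ∀ n, ¬ P n := by
      intro n
      induction n with
      | zero => exact hP0
      | succ n ih => exact hcon n ih
    exact this _ hPtop
  obtain ⟨S₀, hS₀, k₀, hk₀⟩ := hκ1
  -- the covering functions
  have hex : ∀ u, ∃ f : Fin k₀ → Submodule ℝ W, (∀ i, finrank ℝ (f i) ≤ κ) ∧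
      (u ∈ S₀ → ∀ w ∈ nb B x cp S₀ u, ∃ i, x w ∈ f i) := by
    intro u
    by_cases hu : u ∈ S₀
    · obtain ⟨f, hf1, hf2⟩ := (hk₀ u hu).exists_fun
      exact ⟨f, hf1, fun _ => hf2⟩
    · exact ⟨fun _ => ⊥, fun i => by simp, fun h => absurd h hu⟩
  choose f hf1 hf2 using hex
  let 𝓕 : Fin k₀ → V → Submodule ℝ W := fun i u => f u i ⊓ LinearMap.ker (B (x u))
  have h𝓕ker : ∀ i u, 𝓕 i u ≤ LinearMap.ker (B (x u)) := fun i u => inf_le_right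
  have h𝓕fin : ∀ i u, finrank ℝ (𝓕 i u) ≤ κ := fun i u =>
    (Submodule.finrank_mono inf_le_left).trans (hf1 u i)
  have h𝓕cov : ∀ u ∈ S₀, ∀ w ∈ nb B x cp S₀ u, ∃ i, x w ∈ 𝓕 i u := by
    intro u hu w hw
    obtain ⟨i, hi⟩ := hf2 u hu w hw
    exact ⟨i, hi, hw.2.2⟩
  -- non-coverability by smaller flats
  have hκ' : ∀ S ∈ U, ∀ K, ∀ᶠ u in (U : Filter V), ¬ Cov x (nb B x cp S u) K κ := by
    intro S hS K
    by_contra hcon
    rw [Filter.not_eventually] at hcon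
    have hcon' : ∀ᶠ u in (U : Filter V), Cov x (nb B x cp S u) K κ := by
      have := Ultrafilter.frequently_iff_eventually.mp hcon
      simpa using this
    apply hκ
    refine ⟨S ∩ {u | Cov x (nb B x cp S u) K κ}, Filter.inter_mem hS hcon', K, ?_⟩
    rintro u ⟨_, hu⟩
    refine Cov.mono hu ?_ le_rfl
    rintro w ⟨hw, hw2⟩
    exact ⟨hw.1, hw2⟩
  -- choose the good index
  obtain ⟨i₀, hi₀⟩ : ∃ i₀, ∀ S ∈ U, ∀ K, ∀ᶠ u in (U : Filter V),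
      ¬ Cov x (fl x cp (𝓕 i₀ u) S u) K κ := by
    by_contra hcon
    push Not at hcon
    choose S hS K hK using hcon
    have hS' : S₀ ∩ (⋂ i, S i) ∈ U := by
      refine Filter.inter_mem hS₀ ?_
      exact (Filter.iInter_mem).mpr hS
    have h1 := hκ' _ hS' (∑ i, K i)
    have h2 : ∀ i, ∀ᶠ u in (U : Filter V), Cov x (fl x cp (𝓕 i u) (S i) u) (K i) κ := hK
    have h3 : ∀ᶠ u in (U : Filter V), ∀ i, Cov x (fl x cp (𝓕 i u) (S i) u) (K i) κ :=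
      Filter.eventually_all.mpr h2
    have h4 : ∀ᶠ u in (U : Filter V), u ∈ S₀ := hS₀
    obtain ⟨u, hu1, hu3, hu4⟩ := (h1.and (h3.and h4)).exists
    apply hu1
    refine Cov.iUnion hu3 ?_
    rintro w ⟨hw, hcw, hBw⟩
    obtain ⟨i, hi⟩ := h𝓕cov u hu4 w ⟨hw.1, hcw, hBw⟩
    exact ⟨i, Set.mem_iInter.mp hw.2 i, hcw, hi⟩
  -- the generic set
  let S₁ : Set V := S₀ ∩ {u | ¬ Cov x (fl x cp (𝓕 i₀ u) S₀ u) k₀ κ}
  have hS₁ : S₁ ∈ U := Filter.inter_mem hS₀ (hi₀ S₀ hS₀ k₀)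
  -- colouring
  let r : ℕ × Submodule ℝ W → ℕ × Submodule ℝ W → Prop := fun p q =>
    p.1 = q.1 ∧ ∀ a ∈ p.2, ∀ b ∈ q.2, B a b = 0
  have hrs : ∀ p q, r p q → r q p := by
    rintro p q ⟨h1, h2⟩
    exact ⟨h1.symm, fun a ha b hb => by rw [hB]; exact h2 b hb a ha⟩
  let lam : V → ℕ × Submodule ℝ W := fun u => (cp u, 𝓕 i₀ u)
  -- a witness in each generic flat
  have hwit : ∀ u ∈ S₁, ∃ w ∈ S₀, cp w = cp u ∧ x w ∈ 𝓕 i₀ u := by
    intro u hu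
    by_contra hcon
    push Not at hcon
    apply hu.2
    refine ⟨∅, by simp, by simp, ?_⟩
    rintro w ⟨h1, h2, h3⟩
    exact absurd h3 (hcon w h1 h2)
  obtain ⟨Z, hZ, hZs, hZi⟩ := exists_indep (U.map lam) r hrs k₀ (lam '' S₁)
    (by
      rw [Ultrafilter.mem_map]
      exact Filter.mem_of_superset hS₁ (Set.subset_preimage_image lam S₁))
    (by
      rintro _ ⟨u, hu, rfl⟩ ⟨_, hr⟩
      obtain ⟨w, _, _, hw3⟩ := hwit u hu
      exact hx w (hr _ hw3 _ hw3))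
    (by
      rintro _ ⟨u, hu, rfl⟩
      obtain ⟨w, hw1, hw2, hw3⟩ := hwit u hu
      have hsub : {z | z ∈ lam '' S₁ ∧ r (lam u) z} ⊆
          Set.range (fun i : Fin k₀ => (cp u, 𝓕 i w)) := by
        rintro _ ⟨⟨u', hu', rfl⟩, hr1, hr2⟩
        have hcc : cp u = cp u' := hr1
        have hle : 𝓕 i₀ u' ≤ LinearMap.ker (B (x w)) := by
          intro b hb
          exact hr2 _ hw3 b hb
        have hgen : ¬ Cov x (fl x cp (𝓕 i₀ u') S₀ w) k₀ κ := by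
          have := hu'.2
          intro hc
          apply this
          refine hc.mono ?_ le_rfl
          rintro z ⟨hz1, hz2, hz3⟩
          exact ⟨hz1, by rw [hz2, ← hcc, hw2], hz3⟩
        obtain ⟨i, hi⟩ := eq_of_generic h𝓕fin h𝓕cov hw1 hle (h𝓕fin _ _) hgen
        exact ⟨i, by simp only [lam]; rw [← hi, hcc]⟩
      refine (Set.encard_le_encard hsub).trans ?_
      rw [← Set.image_univ]
      refine (Set.encard_image_le _ _).trans ?_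
      simp)
  refine ⟨κ, k₀, S₀, 𝓕, i₀, S₁ ∩ lam ⁻¹' Z, hS₀, Filter.inter_mem hS₁ hZ, ?_, h𝓕ker, h𝓕fin,
    h𝓕cov, hi₀, ?_, ?_⟩
  · rintro u ⟨hu, _⟩
    exact hu.1
  · rintro u ⟨hu, _⟩
    exact hu.2
  · rintro u ⟨hu, huZ⟩ u' ⟨hu', huZ'⟩ hc hall
    exact hZi _ huZ _ huZ' ⟨hc, hall⟩

end

end Pool.Agent.GS
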