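import Pool.Agent.GS.Embed

set_option autoImplicit false

namespace Pool.Agent.GS

noncomputable section

open scoped Classical

/-- The ambient space of the linearisation. -/
abbrev WW (d : ℕ) : Type := EuclideanSpace ℝ (Fin (d + 1)) × ℝ × ℝ

/-- The Lorentz form. -/
def BB (d : ℕ) : WW d →ₗ[ℝ] WW d →ₗ[ℝ] ℝ :=
  LinearMap.mk₂ ℝ (fun a b => 2 * inner ℝ a.1 b.1 - a.2.1 * b.2.2 - b.2.1 * a.2.2)
    (by
      intro a b c
      simp only [Prod.fst_add, Prod.snd_add, inner_add_left]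
      ring)
    (by
      intro r a b
      simp only [Prod.smul_fst, Prod.smul_snd, inner_smul_left, smul_eq_mul,
        RCLike.conj_to_real]
      ring)
    (by
      intro a b c
      simp only [Prod.fst_add, Prod.snd_add, inner_add_right]
      ring)
    (by
      intro r a b
      simp only [Prod.smul_fst, Prod.smul_snd, inner_smul_right, smul_eq_mul]
      ring)

lemma BB_apply (d : ℕ) (a b : WW d) :
    BB d a b = 2 * inner ℝ a.1 b.1 - a.2.1 * b.2.2 - b.2.1 * a.2.2 := rfl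

lemma BB_symm (d : ℕ) (a b : WW d) : BB d a b = BB d b a := by
  rw [BB_apply, BB_apply, real_inner_comm]
  ring

/-- The vector of a sphere. -/
def vec {d : ℕ} (s : EuclideanSpace ℝ (Fin (d + 1)) × ℝ) : WW d :=
  (s.1, ‖s.1‖ ^ 2 - s.2 ^ 2, 1)

lemma BB_vec {d : ℕ} (s t : EuclideanSpace ℝ (Fin (d + 1)) × ℝ) :
    BB d (vec s) (vec t) = s.2 ^ 2 + t.2 ^ 2 - dist s.1 t.1 ^ 2 := by
  rw [BB_apply, dist_eq_norm, @norm_sub_sq_real]
  simp only [vec]
  ring

lemma BB_vec_eq_zero {d : ℕ} (s t : EuclideanSpace ℝ (Fin (d + 1)) × ℝ) :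
    BB d (vec s) (vec t) = 0 ↔ dist s.1 t.1 ^ 2 = s.2 ^ 2 + t.2 ^ 2 := by
  rw [BB_vec, sub_eq_zero, eq_comm]

/-- The class of orthogonality graphs of `d`-spheres has the Gyárfás–Sumner property. -/
theorem gyarfas_sumner_spheres :
    ∀ d : ℕ, 1 ≤ d →
      ∀ m : ℕ, ∀ T : SimpleGraph (Fin m), T.IsTree →
        ∀ k : ℕ, ∃ c : ℕ,
          ∀ n : ℕ, ∀ S : Fin n → EuclideanSpace ℝ (Fin (d + 1)) × ℝ,
            Function.Injective S →
            (∀ i, 0 < (S i).2) →
            ¬ Nonempty (T ↪g SimpleGraph.fromRel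
                (fun i j : Fin n => dist (S i).1 (S j).1 ^ 2 = (S i).2 ^ 2 + (S j).2 ^ 2)) →
            (SimpleGraph.fromRel
                (fun i j : Fin n => dist (S i).1 (S j).1 ^ 2 = (S i).2 ^ 2 + (S j).2 ^ 2)).CliqueFree k →
            (SimpleGraph.fromRel
                (fun i j : Fin n => dist (S i).1 (S j).1 ^ 2 = (S i).2 ^ 2 + (S j).2 ^ 2)).Colorable c := by
  intro d _ m T hT k
  by_contra hcon
  push Not at hcon
  choose n S hinj hpos hT' hclique hcol using hcon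
  -- the disjoint union
  let V : Type := Σ c : ℕ, Fin (n c)
  let x : V → WW d := fun v => vec (S v.1 v.2)
  let cp : V → ℕ := fun v => v.1
  have hx : ∀ v, BB d (x v) (x v) ≠ 0 := by
    intro v
    have hp := hpos v.1 v.2
    simp only [x]
    rw [BB_vec, dist_self]
    have : 0 < (S v.1 v.2).2 ^ 2 := pow_pos hp 2
    intro h
    nlinarith
  -- finitely colourable sets
  let p : Set V → Prop := fun X => ∃ N : ℕ, ∃ f : V → ℕ, (∀ v, f v < N) ∧
    ∀ u ∈ X, ∀ v ∈ X, cp u = cp v → BB d (x u) (x v) = 0 → f u ≠ f v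
  have hpe : p ∅ := ⟨1, fun _ => 0, fun _ => Nat.one_pos, fun u hu => absurd hu (by simp)⟩
  have hpm : ∀ t, p t → ∀ s ⊆ t, p s := by
    rintro t ⟨N, f, h1, h2⟩ s hst
    exact ⟨N, f, h1, fun u hu v hv => h2 u (hst hu) v (hst hv)⟩
  have hpu : ∀ s, p s → ∀ t, p t → p (s ∪ t) := by
    rintro s ⟨N₁, f₁, h1, h1'⟩ t ⟨N₂, f₂, h2, h2'⟩
    refine ⟨N₁ + N₂, fun v => if v ∈ s then f₁ v else N₁ + f₂ v, ?_, ?_⟩
    · intro v
      have := h1 v
      have := h2 v
      by_cases hv : v ∈ s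
      · simp only [hv, if_true]; omega
      · simp only [hv, if_false]; omega
    · intro u hu v hv hc hB
      have e1 := h1 u
      have e2 := h1 v
      by_cases hus : u ∈ s <;> by_cases hvs : v ∈ s
      · simp only [hus, hvs, if_true]
        exact h1' u hus v hvs hc hB
      · simp only [hus, hvs, if_true, if_false]; omega
      · simp only [hus, hvs, if_true, if_false]; omega
      · simp only [hus, hvs, if_false]
        have hut : u ∈ t := hu.resolve_left hus
        have hvt : v ∈ t := hv.resolve_left hvs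
        have := h2' u hut v hvt hc hB
        omega
  have hpuniv : ¬ p Set.univ := by
    rintro ⟨N, f, h1, h2⟩
    apply hcol N
    refine ⟨SimpleGraph.Coloring.mk (fun i => (⟨f ⟨N, i⟩, h1 _⟩ : Fin N)) ?_⟩
    intro i j hij h
    rw [SimpleGraph.fromRel_adj] at hij
    have hfij : f ⟨N, i⟩ = f ⟨N, j⟩ := congrArg Fin.val h
    have hB : BB d (x ⟨N, i⟩) (x ⟨N, j⟩) = 0 := by
      rcases hij.2 with h' | h'
      · exact (BB_vec_eq_zero _ _).mpr h'
      · rw [BB_symm]; exact (BB_vec_eq_zero _ _).mpr h'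
    exact h2 ⟨N, i⟩ trivial ⟨N, j⟩ trivial rfl hB hfij
  let 𝓖 : Filter V := Filter.comk p hpe hpm hpu
  have h𝓖 : 𝓖.NeBot := by
    rw [Filter.neBot_iff]
    intro h
    have : (∅ : Set V) ∈ 𝓖 := by rw [h]; exact Filter.mem_bot
    rw [Filter.mem_comk, Set.compl_empty] at this
    exact hpuniv this
  let U : Ultrafilter V := Ultrafilter.of 𝓖
  have hU : ∀ X ∈ U, ∃ u ∈ X, (nb (BB d) x cp X u).Nonempty := by
    intro X hX
    by_contra hno
    push Not at hno
    have hpX : p X := by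
      refine ⟨1, fun _ => 0, fun _ => Nat.one_pos, ?_⟩
      intro u hu v hv hc hB
      have := hno u hu
      have hv' : v ∈ nb (BB d) x cp X u := ⟨hv, hc.symm, hB⟩
      rw [this] at hv'
      exact absurd hv' (by simp)
    have hXc : Xᶜ ∈ 𝓖 := by
      rw [Filter.mem_comk, compl_compl]
      exact hpX
    have : Xᶜ ∈ U := Ultrafilter.of_le 𝓖 hXc
    exact (Ultrafilter.compl_mem_iff_notMem.mp this) hX
  obtain ⟨φ, hφinj, hφc, hφ⟩ :=
    exists_induced_tree (BB d) (BB_symm d) x cp hx U hU m T hT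
  have hm : Nonempty (Fin m) := hT.1.nonempty
  obtain ⟨a₀⟩ := hm
  obtain ⟨c, hc⟩ : ∃ c, ∀ a, (φ a).1 = c := ⟨(φ a₀).1, fun a => hφc a a₀⟩
  have hψ : ∀ a, ∃ i : Fin (n c), φ a = ⟨c, i⟩ := by
    intro a
    have := hc a
    rcases h : φ a with ⟨c', i⟩
    rw [h] at this
    simp only at this
    subst this
    exact ⟨i, rfl⟩
  choose ψ hψ using hψ
  refine (hT' c).false ?_
  refine ⟨⟨ψ, ?_⟩, ?_⟩
  · intro a b hab
    apply hφinj
    rw [hψ a, hψ b, hab]
  · intro a b
    change (SimpleGraph.fromRel _).Adj (ψ a) (ψ b) ↔ T.Adj a b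
    rw [SimpleGraph.fromRel_adj]
    constructor
    · rintro ⟨hne, h⟩
      have hab : a ≠ b := fun h => hne (by rw [h])
      rw [← hφ a b hab, hψ a, hψ b]
      rcases h with h | h
      · exact (BB_vec_eq_zero _ _).mpr h
      · rw [BB_symm]; exact (BB_vec_eq_zero _ _).mpr h
    · intro h
      have hab : a ≠ b := h.ne
      refine ⟨fun he => hab (hφinj (by rw [hψ a, hψ b, he])), Or.inl ?_⟩
      have := (hφ a b hab).mpr h
      rw [hψ a, hψ b] at this
      exact (BB_vec_eq_zero _ _).mp this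

end

end Pool.Agent.GS
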